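import Pool.Agent.H34.Bisym.Suf

/-!
# Reflexivity sets of symmetric bisymmetric operations (MP_a2bf4b_an)

For every interval `I` we determine which sets with more than one point are the set of all points of
reflexivity of a bisymmetric, symmetric, partially strictly increasing operation on `I`.
-/

set_option autoImplicit false

namespace Pool.Agent.Results.MP_a2bf4b_an.ReflexivitySets

open Set Pool.Agent.H34.Bisym

/-- Bisymmetric, symmetric, partially strictly increasing operations on `I`. -/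
structure IsOperation {I : Set ℝ} (F : I → I → I) : Prop where
  bisymmetric : ∀ x y u v, F (F x y) (F u v) = F (F x u) (F y v)
  symmetric : ∀ x y, F x y = F y x
  increasing_left : ∀ y, StrictMono fun x => F x y
  increasing_right : ∀ x, StrictMono fun y => F x y

/-- The set of the points at which `F` is reflexive. -/
def reflexiveSet {I : Set ℝ} (F : I → I → I) : Set ℝ :=
  {x | ∃ h : x ∈ I, F ⟨x, h⟩ ⟨x, h⟩ = ⟨x, h⟩}

lemma IsOperation.laws {I : Set ℝ} {F : I → I → I} (h : IsOperation F) : Laws F :=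
  ⟨h.bisymmetric, h.symmetric, h.increasing_right⟩

lemma nest {I : Set ℝ} (hI : I.OrdConnected) (l u : ℕ → I) (h : ∀ n m, l n ≤ u m) :
    ∃ x : I, ∀ n, l n ≤ x ∧ x ≤ u n := by
  have bdd : BddAbove (range fun n => (l n : ℝ)) := by
    refine ⟨u 0, ?_⟩
    rintro _ ⟨n, rfl⟩
    exact h n 0
  have h1 : ∀ n, (l n : ℝ) ≤ sSup (range fun n => (l n : ℝ)) := fun n => le_csSup bdd ⟨n, rfl⟩
  have h2 : ∀ n, sSup (range fun n => (l n : ℝ)) ≤ u n := fun n => by
    refine csSup_le (range_nonempty _) ?_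
    rintro _ ⟨m, rfl⟩
    exact h m n
  exact ⟨⟨_, hI.out (l 0).2 (u 0).2 ⟨h1 0, h2 0⟩⟩, fun n => ⟨h1 n, h2 n⟩⟩

lemma ineq {I : Set ℝ} (hI : I.OrdConnected) {F : I → I → I} (hF : IsOperation F) {a b : I}
    (hab : a < b) (ha : F a a = a) (hb : F b b = b) (x : I) :
    (a ≤ x → x ≤ F x x) ∧ (x ≤ b → F x x ≤ x) :=
  ⟨fun h => above (fun x : I => (x : ℝ)) (fun _ _ h => h) (nest hI) hF.laws ha hb hab h,
    fun h => below (fun x : I => (x : ℝ)) (fun _ _ h => h) (nest hI) hF.laws ha hb hab h⟩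

lemma necessary {I : Set ℝ} (hI : I.OrdConnected) {F : I → I → I} (hF : IsOperation F)
    (hn : (reflexiveSet F).Nontrivial) :
    reflexiveSet F ⊆ I ∧ (reflexiveSet F).OrdConnected ∧ (∀ m, IsGreatest I m → m ∈ reflexiveSet F) ∧
      ∀ m, IsLeast I m → m ∈ reflexiveSet F := by
  refine ⟨fun x hx => hx.1, ?_, ?_, ?_⟩
  · constructor
    rintro a ⟨haI, ha⟩ b ⟨hbI, hb⟩ x ⟨hax, hxb⟩
    have hxI : x ∈ I := hI.out haI hbI ⟨hax, hxb⟩
    refine ⟨hxI, ?_⟩
    rcases hax.lt_or_eq with h1 | h1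
    · have hab : (⟨a, haI⟩ : I) < ⟨b, hbI⟩ := h1.trans_le hxb
      have := ineq hI hF hab ha hb ⟨x, hxI⟩
      exact le_antisymm (this.2 hxb) (this.1 hax)
    · subst h1
      exact ha
  · intro m hm
    obtain ⟨a, ⟨haI, ha⟩, b, ⟨hbI, hb⟩, hab⟩ := hn.exists_lt
    refine ⟨hm.1, ?_⟩
    have := ineq hI hF (a := ⟨a, haI⟩) (b := ⟨b, hbI⟩) hab ha hb ⟨m, hm.1⟩
    exact le_antisymm (hm.2 (F ⟨m, hm.1⟩ ⟨m, hm.1⟩).2) (this.1 (hm.2 haI))
  · intro m hm
    obtain ⟨a, ⟨haI, ha⟩, b, ⟨hbI, hb⟩, hab⟩ := hn.exists_lt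
    refine ⟨hm.1, ?_⟩
    have := ineq hI hF (a := ⟨a, haI⟩) (b := ⟨b, hbI⟩) hab ha hb ⟨m, hm.1⟩
    exact le_antisymm (this.2 (hm.2 hbI)) (hm.2 (F ⟨m, hm.1⟩ ⟨m, hm.1⟩).2)

lemma sufficient {I J : Set ℝ} (hI : I.OrdConnected) (hJn : J.Nontrivial) (hJI : J ⊆ I)
    (hJ : J.OrdConnected) (hmax : ∀ m, IsGreatest I m → m ∈ J) (hmin : ∀ m, IsLeast I m → m ∈ J) :
    ∃ F : I → I → I, IsOperation F ∧ reflexiveSet F = J := by
  obtain ⟨θ, h1, h2, h3, h4, h5, h6, h7⟩ := chart I J hJn hJI hmax hmin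
  set cl : Prop := ∃ x ∈ J, θ x = 0 with hcl
  set cr : Prop := ∃ x ∈ J, θ x = 1 with hcr
  -- points outside `J` are above or below
  have dich : ∀ x ∈ I, x ∉ J → (∀ j ∈ J, j < x) ∨ (∀ j ∈ J, x < j) := by
    intro x _ hxJ
    by_contra hcon
    push Not at hcon
    obtain ⟨⟨j, hj, hxj⟩, j', hj', hjx⟩ := hcon
    exact hxJ (hJ.out hj' hj ⟨hjx, hxj⟩)
  have inj := h1.injOn
  have key : ∀ x ∈ I, (lev cl cr (θ x) = 0 ↔ x ∈ J) := by
    intro x hx
    constructor
    · intro h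
      have hs := lev_spec cl cr (θ x)
      rw [h] at hs
      obtain ⟨e1, e2, e3, e4⟩ := hs
      simp only [Int.cast_zero, sub_zero] at e1 e2 e3 e4
      by_contra hxJ
      rcases dich x hx hxJ with h8 | h8
      · have h9 : θ x = 1 := le_antisymm e2 (h4 x hx h8)
        have h10 : cr := by
          by_contra hc
          exact e4 h9 ⟨fun h => absurd h (by norm_num), fun _ => hc⟩
        obtain ⟨x', hx', hx1⟩ := h10
        exact hxJ (inj hx (hJI hx') (h9.trans hx1.symm) ▸ hx')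
      · have h9 : θ x = 0 := le_antisymm (h5 x hx h8) e1
        obtain ⟨x', hx', hx1⟩ := (e3 h9).1 le_rfl
        exact hxJ (inj hx (hJI hx') (h9.trans hx1.symm) ▸ hx')
    · intro hxJ
      apply lev_unique
      simp only [Int.cast_zero, sub_zero]
      refine ⟨(h3 x hxJ).1, (h3 x hxJ).2, fun h => ⟨fun _ => ⟨x, hxJ, h⟩, fun h => absurd h (lt_irrefl _)⟩,
        fun h h' => h'.2 (by norm_num) ⟨x, hxJ, h⟩⟩
  have levle : ∀ u, (lev cl cr u : ℝ) ≤ u := fun u => by linarith [(lev_spec cl cr u).1]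
  have levge : ∀ u, u - 1 ≤ lev cl cr u := fun u => by linarith [(lev_spec cl cr u).2.1]
  have oc : (θ '' I).OrdConnected := (hI.isPreconnected.image θ h2).ordConnected
  have closed : ∀ x ∈ I, ∀ y ∈ I, F0 cl cr (θ x) (θ y) ∈ θ '' I := by
    intro x hx y hy
    obtain ⟨z, hz, hz'⟩ : ∃ z ∈ I, F0 cl cr (θ x) (θ y) ≤ θ z := by
      by_cases hU : ∃ x ∈ I, ∀ j ∈ J, j < x
      · exact h6 hU _
      · have hl : ∀ x ∈ I, (lev cl cr (θ x) : ℝ) ≤ 0 := by
          intro x hx
          by_cases hxJ : x ∈ J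
          · rw [(key x hx).2 hxJ]; simp
          · rcases dich x hx hxJ with h8 | h8
            · exact absurd ⟨x, hx, h8⟩ hU
            · exact (levle _).trans (h5 x hx h8)
        have l1 := hl x hx
        have l2 := hl y hy
        unfold F0
        rcases le_total (θ x) (θ y) with h8 | h8
        · exact ⟨y, hy, by linarith⟩
        · exact ⟨x, hx, by linarith⟩
    obtain ⟨w, hw, hw'⟩ : ∃ z ∈ I, θ z ≤ F0 cl cr (θ x) (θ y) := by
      by_cases hU : ∃ x ∈ I, ∀ j ∈ J, x < j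
      · exact h7 hU _
      · have hl : ∀ x ∈ I, 0 ≤ (lev cl cr (θ x) : ℝ) := by
          intro x hx
          by_cases hxJ : x ∈ J
          · rw [(key x hx).2 hxJ]; simp
          · rcases dich x hx hxJ with h8 | h8
            · linarith [levge (θ x), h4 x hx h8]
            · exact absurd ⟨x, hx, h8⟩ hU
        have l1 := hl x hx
        have l2 := hl y hy
        unfold F0
        rcases le_total (θ x) (θ y) with h8 | h8
        · exact ⟨x, hx, by linarith⟩
        · exact ⟨y, hy, by linarith⟩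
    exact oc.out ⟨w, hw, rfl⟩ ⟨z, hz, rfl⟩ ⟨hw', hz'⟩
  have ex : ∀ x y : I, ∃ z : I, θ z = F0 cl cr (θ x) (θ y) := fun x y => by
    obtain ⟨z, hz, hz'⟩ := closed x x.2 y y.2
    exact ⟨⟨z, hz⟩, hz'⟩
  choose F hF using ex
  have inj' : ∀ x y : I, θ x = θ y → x = y := fun x y h => Subtype.ext (inj x.2 y.2 h)
  have lt' : ∀ x y : I, θ x < θ y → x < y := fun x y h => (h1.lt_iff_lt x.2 y.2).1 h
  have sym0 : ∀ u v, F0 cl cr u v = F0 cl cr v u := fun u v => by unfold F0; ring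
  have sym : ∀ x y, F x y = F y x := fun x y => inj' _ _ (by rw [hF, hF, sym0])
  have mono : ∀ x, StrictMono (F x) := fun x y z hyz => lt' _ _ (by
    rw [hF, hF]
    exact F0_lt _ _ _ (h1 y.2 z.2 hyz))
  refine ⟨F, ⟨fun x y u v => inj' _ _ ?_, sym, fun y x x' h => ?_, mono⟩, ?_⟩
  · simp only [hF]
    exact F0_bis _ _ _ _ _ _
  · simp only
    rw [sym x y, sym x' y]
    exact mono y h
  · ext x
    constructor
    · rintro ⟨hx, h⟩
      have := congrArg (fun z : I => θ z) h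
      simp only [hF] at this
      refine (key x hx).1 ?_
      unfold F0 at this
      have h9 : (lev cl cr (θ x) : ℝ) = 0 := by linarith
      exact_mod_cast h9
    · intro hxJ
      refine ⟨hJI hxJ, inj' _ _ ?_⟩
      rw [hF]
      unfold F0
      simp only [(key x (hJI hxJ)).2 hxJ]
      push_cast
      ring

/-- **Reflexivity sets.** Let `I` be an interval with more than one point.

* A set `J` with more than one point is the set of all the points of reflexivity of some bisymmetric,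
  symmetric, partially strictly increasing operation on `I` if and only if `J` is a subinterval of `I`
  which contains the end points of `I` that belong to `I`.
* If such an operation is reflexive at `a < b`, then `F x x ≥ x` for all `x ≥ a` and `F x x ≤ x` for
  all `x ≤ b`.
* There is such an operation on `I` which is reflexive on a proper subinterval with more than one
  point but not on the whole of `I` if and only if `I` is not compact. -/
theorem result (I : Set ℝ) (hI : I.OrdConnected) (hI' : I.Nontrivial) :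
    (∀ J : Set ℝ, J.Nontrivial → ((∃ F : I → I → I, IsOperation F ∧ reflexiveSet F = J) ↔
      J ⊆ I ∧ J.OrdConnected ∧ (∀ m, IsGreatest I m → m ∈ J) ∧ ∀ m, IsLeast I m → m ∈ J)) ∧
    (∀ F : I → I → I, IsOperation F → ∀ a b : I, a < b → F a a = a → F b b = b →
      ∀ x, (a ≤ x → x ≤ F x x) ∧ (x ≤ b → F x x ≤ x)) ∧
    ((∃ (J : Set ℝ) (F : I → I → I), J.OrdConnected ∧ J.Nontrivial ∧ J ⊂ I ∧ IsOperation F ∧
      J ⊆ reflexiveSet F ∧ ∃ x₀ : I, F x₀ x₀ ≠ x₀) ↔ ¬ IsCompact I) := by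
  refine ⟨fun J hJ => ⟨?_, fun ⟨h1, h2, h3, h4⟩ => sufficient hI hJ h1 h2 h3 h4⟩,
    fun F hF a b hab ha hb x => ineq hI hF hab ha hb x, ?_, ?_⟩
  · rintro ⟨F, hF, rfl⟩
    exact necessary hI hF hJ
  · rintro ⟨J, F, -, hJn, -, hF, hJF, x₀, hx₀⟩ hc
    obtain ⟨-, h2, h3, h4⟩ := necessary hI hF (hJn.mono hJF)
    obtain ⟨M, hM⟩ := hc.exists_isGreatest hI'.nonempty
    obtain ⟨m, hm⟩ := hc.exists_isLeast hI'.nonempty
    obtain ⟨h6, h5⟩ := h2.out (h4 m hm) (h3 M hM) ⟨hm.2 x₀.2, hM.2 x₀.2⟩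
    exact hx₀ h5
  · intro hc
    obtain ⟨a, ha, b, hb, hab⟩ := hI'.exists_lt
    set c := (a + b) / 2 with hcdef
    have hcI : c ∈ I := hI.out ha hb ⟨by linarith, by linarith⟩
    have hends : (¬ ∃ M, IsGreatest I M) ∨ ¬ ∃ m, IsLeast I m := by
      by_contra hcon
      push Not at hcon
      obtain ⟨⟨M, hM⟩, m, hm⟩ := hcon
      apply hc
      have : I = Icc m M := by
        apply Subset.antisymm
        · exact fun x hx => ⟨hm.2 hx, hM.2 hx⟩
        · exact hI.out hm.1 hM.1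
      rw [this]
      exact isCompact_Icc
    rcases hends with h | h
    · have hJ1 : (I ∩ Iic c).Nontrivial :=
        ⟨a, ⟨ha, by simp only [mem_Iic]; linarith⟩, c, ⟨hcI, self_mem_Iic⟩, by linarith⟩
      have hJ2 : (I ∩ Iic c).OrdConnected := hI.inter ordConnected_Iic
      obtain ⟨F, hF, hFJ⟩ := sufficient hI hJ1 inter_subset_left hJ2
        (fun m hm => absurd ⟨m, hm⟩ h) (fun m hm => ⟨hm.1, hm.2 hcI⟩)
      have hbn : b ∉ I ∩ Iic c := fun hb' => by
        have := hb'.2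
        simp only [mem_Iic] at this
        linarith
      refine ⟨I ∩ Iic c, F, hJ2, hJ1, ⟨inter_subset_left, fun hsub => hbn (hsub hb)⟩, hF, hFJ.ge,
        ⟨b, hb⟩, fun hbb => hbn ?_⟩
      rw [← hFJ]
      exact ⟨hb, hbb⟩
    · have hJ1 : (I ∩ Ici c).Nontrivial :=
        ⟨c, ⟨hcI, self_mem_Ici⟩, b, ⟨hb, by simp only [mem_Ici]; linarith⟩, by linarith⟩
      have hJ2 : (I ∩ Ici c).OrdConnected := hI.inter ordConnected_Ici
      obtain ⟨F, hF, hFJ⟩ := sufficient hI hJ1 inter_subset_left hJ2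
        (fun m hm => ⟨hm.1, hm.2 hcI⟩) (fun m hm => absurd ⟨m, hm⟩ h)
      have hbn : a ∉ I ∩ Ici c := fun hb' => by
        have := hb'.2
        simp only [mem_Ici] at this
        linarith
      refine ⟨I ∩ Ici c, F, hJ2, hJ1, ⟨inter_subset_left, fun hsub => hbn (hsub ha)⟩, hF, hFJ.ge,
        ⟨a, ha⟩, fun hbb => hbn ?_⟩
      rw [← hFJ]
      exact ⟨ha, hbb⟩

end Pool.Agent.Results.MP_a2bf4b_an.ReflexivitySets
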